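import Pool.Agent.Helper19.TS.OL1ArR
import Pool.Agent.Helper70.OL.Small
import Pool.Agent.Helper78.TS.PieceC
import Pool.Agent.Helper19.TS.OL1ArAsm
import Pool.Agent.Helper70.OA.POne
import Pool.Agent.Helper70.OA.PChy
import Pool.Agent.Helper70.OA.PChx
import Pool.Agent.Helper70.OA.PCpy
import Pool.Agent.Helper70.OA.PCpx
import Pool.Agent.Helper70.OA.SOne
import Pool.Agent.Helper70.OA.SChy
import Pool.Agent.Helper70.OA.SChx
import Pool.Agent.Helper70.OA.SCpy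
import Pool.Agent.Helper70.OA.SCpx
import Pool.Agent.Helper70.OA.ROne
import Pool.Agent.Helper70.OA.RTwox
import Pool.Agent.Helper70.OA.RChy
import Pool.Agent.Helper70.OA.RChx
import Pool.Agent.Helper70.OA.RCpy
import Pool.Agent.Helper70.OA.RCpx
import Pool.Agent.Helper47.FC.Fin
import Pool.Agent.Helper83.Cert.RE

/-!
# The values of the gains of the columns with two rows
-/

set_option autoImplicit false
set_option maxRecDepth 100000
set_option linter.all false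

namespace Pool.Agent.Helper70.OA

open Pool.Agent.Helper83.Cert (finE)

open Pool.Agent.Helper83.Cert Pool.Agent.Helper47.FC Pool.Agent.Helper74.TS Pool.Agent.Helper83.TS Pool.Agent.Helper36.CK Pool.Agent.Helper36.TS
open Pool.Agent.Helper8.TS.OL1Ar Pool.Agent.Helper19.TS.OL1Ar Pool.Agent.Helper78.TS Pool.Agent.Helper70.OL

theorem p_top  :
    ∀ w : ℝ, 0 ≤ w → w ≤ 1 →
    fp w ≤ 1943 / 2500 := by
  intro w h1 h2
  exact finE (yv_nonneg h1 (le_refl 0) (le_refl 0) (le_refl 0) (le_refl 0) (le_refl 0) (le_refl 0) (le_refl 0) (le_refl 0)) (.A (.A (.A (.D (.n 9) 9998) (.M (.D (.n 95) 998) .v0)) (.M (.D (.n 281) 2498) (.P .v0))) (.M (.D (.n 99) 2498) (.Q .v0))) (.D (.n 1941) 2498)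
    [.v0, (.S .o .v0)]
    ⟨h1, Pool.Agent.Helper83.Cert.sn h2, trivial⟩
    9 3 0x1042000000000000000000000fc90010800000000000000000000f00800020000000000000000000061e7 0 0x0 (by decide +kernel)

theorem p_ty  :
    ∀ w c : ℝ, 0 ≤ w → w ≤ 1 → 0 ≤ c → c ≤ 1 →
    Bps w c + fs c ≤ 1943 / 2500 := by
  intro w c h1 h2 h3 h4
  exact finE (yv_nonneg h1 h3 (le_refl 0) (le_refl 0) (le_refl 0) (le_refl 0) (le_refl 0) (le_refl 0) (le_refl 0)) (.A (.S (.S (.A (.A (.S (.S (.A (.A (.D (.n 2) 623) (.M (.D (.n 537) 9998) .v0)) (.M (.D (.n 121) 623) (.P .v0))) (.M (.D (.n 71) 9998) (.Q .v0))) (.M (.D (.n 25) 1998) .v1)) (.M (.D (.n 41) 4998) (.P .v1))) (.M (.D (.n 211) 998) (.M .v0 .v1))) (.M (.D (.n 2121) 9998) (.M (.P .v0) .v1))) (.M (.D (.n 211) 998) (.M .v0 (.P .v1)))) (.S (.A (.A (.D .o 123) (.M (.D (.n 1747) 9998) .v1)) (.M (.D (.n 3177) 9998) (.P .v1))) (.M (.D (.n 1191) 9998) (.Q .v1)))) (.D (.n 1941) 2498)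
    [.v0, (.S .o .v0), .v1, (.S .o .v1)]
    ⟨h1, Pool.Agent.Helper83.Cert.sn h2, h3, Pool.Agent.Helper83.Cert.sn h4, trivial⟩
    9 9 0x40c4000000000000000000002e991011000000000000000000000c3681044000000000000000000000c3a103080000000000000000000089644082000000000000000000008fff002080000000000000000000030b0404200000000000000000000ef2608108000000000000000000000d1c104200000000000000000000006e 0 0x0 (by decide +kernel)

theorem p_tx  :
    ∀ w c : ℝ, 0 ≤ w → w ≤ 1 → 0 ≤ c → c ≤ 1 →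
    Bpr w c + fr c ≤ 1943 / 2500 := by
  intro w c h1 h2 h3 h4
  exact finE (yv_nonneg h1 h3 (le_refl 0) (le_refl 0) (le_refl 0) (le_refl 0) (le_refl 0) (le_refl 0) (le_refl 0)) (.A (.S (.S (.S (.S (.A (.S (.A (.A (.D (.n 15) 2498) (.M (.D (.n 2515) 9998) .v0)) (.M (.D (.n 477) 9998) (.P .v0))) (.M (.D (.n 21) 9998) (.Q .v0))) (.M (.D (.n 9) 998) .v1)) (.M (.D (.n 55) 4998) (.P .v1))) (.M (.D (.n 45) 398) (.M .v0 .v1))) (.M (.D (.n 9) 248) (.M (.P .v0) .v1))) (.M (.D (.n 71) 623) (.M .v0 (.P .v1)))) (.A (.A (.A (.D (.n 767) 1998) (.M (.D (.n 2855) 9998) .v1)) (.M (.D (.n 11) 248) (.P .v1))) (.M (.D (.n 14) 623) (.Q .v1)))) (.D (.n 1941) 2498)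
    [.v0, (.S .o .v0), .v1, (.S .o .v1)]
    ⟨h1, Pool.Agent.Helper83.Cert.sn h2, h3, Pool.Agent.Helper83.Cert.sn h4, trivial⟩
    9 9 0x30c4000000000000000000000a0110110000000000000000000004f041044000000000000000000000d51103080000000000000000000067784082000000000000000000008dc500208000000000000000000001dc8404200000000000000000000ac45081080000000000000000000020541042000000000000000000000730 0 0x0 (by decide +kernel)

theorem mo_p {x y z : ℝ} (x0 : 0 ≤ x) (x1 : x ≤ 3 / 5) (y0 : 0 ≤ y) (y1 : y ≤ 3 / 5)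
    (z0 : 0 ≤ z) (z1 : z ≤ 3 / 5) (h : x + y + z ≤ 9 / 10) :
    ModesC (nr y) (ns z) (krs y z) y z (Wp0 y z) (Wp y z) 0 (gg x y z) 0
      (fun _ _ _ _ _ => True) flA fp fr fs Bpr Bps Brs Bsr := by
  have g0 : y + z ≤ 9 / 10 := by linarith
  have hg : 1943 / 2500 ≤ gg x y z := by
    unfold gg
    linarith
  have hg2 : gg 0 y z ≤ gg x y z := by
    unfold gg
    linarith
  refine ⟨fun w A B c => ?_, fun w A B c => ?_, fun w A B c A1 => ?_, fun w A B c B1 => ?_,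
    fun w A B t c A1 t0 t1 => ?_, fun w A B t c B1 t0 t1 => ?_, fun w A B t c t0 t1 => ?_,
    fun w A B t c t0 t1 => ?_⟩
  · exact (p_one_bd y0 y1 z0 z1 g0 c).mono (by linarith)
  · have e := p_top w c.w0.le c.w1
    exact (p_one_bd y0 y1 z0 z1 g0 c).mono (by linarith)
  · have e := p_ty w (1 - A) c.w0.le c.w1 (by linarith) (by linarith [c.A0])
    exact (p_cpy_bd y0 y1 z0 z1 g0 c A1 (by linarith : (0 : ℝ) ≤ 1 - A) le_rfl).mono (by linarith)
  · have e := p_tx w (1 - B) c.w0.le c.w1 (by linarith) (by linarith [c.B0])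
    exact (p_cpx_bd y0 y1 z0 z1 g0 c B1 (by linarith : (0 : ℝ) ≤ 1 - B) le_rfl).mono (by linarith)
  · exact (p_chy_bd y0 y1 z0 z1 g0 c A1 (by linarith) t0 t1).mono (by linarith)
  · exact (p_chx_bd y0 y1 z0 z1 g0 c (by linarith) B1 t0 t1).mono (by linarith)
  · exact (p_cpy_bd y0 y1 z0 z1 g0 c (by linarith) t0 t1).mono (by linarith)
  · exact (p_cpx_bd y0 y1 z0 z1 g0 c (by linarith) t0 t1).mono (by linarith)

theorem hmp : HMp := fun x y z x0 x1 y0 y1 z0 z1 h =>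
  mo_p x0 x1.le y0 y1.le z0 z1.le h.le

theorem s_top  :
    ∀ w : ℝ, 0 ≤ w → w ≤ 1 →
    fs w ≤ 1943 / 2500 := by
  intro w h1 h2
  exact finE (yv_nonneg h1 (le_refl 0) (le_refl 0) (le_refl 0) (le_refl 0) (le_refl 0) (le_refl 0) (le_refl 0) (le_refl 0)) (.S (.A (.A (.D .o 123) (.M (.D (.n 1747) 9998) .v0)) (.M (.D (.n 3177) 9998) (.P .v0))) (.M (.D (.n 1191) 9998) (.Q .v0))) (.D (.n 1941) 2498)
    [.v0, (.S .o .v0)]
    ⟨h1, Pool.Agent.Helper83.Cert.sn h2, trivial⟩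
    9 3 0x2042000000000000000000004d9604108000000000000000000007bf400020000000000000000000091e9 0 0x0 (by decide +kernel)

theorem s_ty  :
    ∀ w c : ℝ, 0 ≤ w → w ≤ 1 → 0 ≤ c → c ≤ 1 →
    Bsr w c + fr c ≤ 1943 / 2500 := by
  intro w c h1 h2 h3 h4
  exact finE (yv_nonneg h1 h3 (le_refl 0) (le_refl 0) (le_refl 0) (le_refl 0) (le_refl 0) (le_refl 0) (le_refl 0)) (.A (.S (.S (.S (.A (.A (.A (.A (.D (.n 75) 2498) (.M (.D (.n 411) 1998) .v0)) (.M (.D (.n 217) 1998) (.P .v0))) (.M (.D (.n 117) 9998) (.Q .v0))) (.M (.D (.n 21) 623) .v1)) (.M (.D (.n 337) 4998) (.P .v1))) (.M (.D (.n 2051) 9998) (.M .v0 .v1))) (.M (.D (.n 557) 4998) (.M (.P .v0) .v1))) (.A (.A (.A (.D (.n 767) 1998) (.M (.D (.n 2855) 9998) .v1)) (.M (.D (.n 11) 248) (.P .v1))) (.M (.D (.n 14) 623) (.Q .v1)))) (.D (.n 1941) 2498)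
    [.v0, (.S .o .v0), .v1, (.S .o .v1)]
    ⟨h1, Pool.Agent.Helper83.Cert.sn h2, h3, Pool.Agent.Helper83.Cert.sn h4, trivial⟩
    9 9 0x440000000000000000000005f60c31000000000000000000000280400c40000000000000000000003d7003080000000000000000000010f8410200000000000000000000000108408000000000000000000021838404200000000000000000000b1b90410800000000000000000000129c00420000000000000000000003c3 0 0x0 (by decide +kernel)

theorem s_tx  :
    ∀ w c : ℝ, 0 ≤ w → w ≤ 1 → 0 ≤ c → c ≤ 1 →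
    Bsp w c + fp c ≤ 1943 / 2500 := by
  intro w c h1 h2 h3 h4
  exact finE (yv_nonneg h1 h3 (le_refl 0) (le_refl 0) (le_refl 0) (le_refl 0) (le_refl 0) (le_refl 0) (le_refl 0)) (.A (.S (.A (.S (.S (.A (.A (.S (.A (.D (.n 16) 623) (.M (.D (.n 675) 1998) .v0)) (.M (.D (.n 625) 4998) (.P .v0))) (.M (.D (.n 971) 4998) (.Q .v0))) (.M (.D (.n 115) 9998) .v1)) (.M (.D (.n 195) 9998) (.P .v1))) (.M (.D (.n 207) 9998) (.M .v0 .v1))) (.M (.D (.n 271) 4998) (.M (.P .v0) .v1))) (.M (.D (.n 497) 1998) (.M .v0 (.P .v1)))) (.A (.A (.A (.D (.n 9) 9998) (.M (.D (.n 95) 998) .v1)) (.M (.D (.n 281) 2498) (.P .v1))) (.M (.D (.n 99) 2498) (.Q .v1)))) (.D (.n 1941) 2498)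
    [.v0, (.S .o .v0), .v1, (.S .o .v1)]
    ⟨h1, Pool.Agent.Helper83.Cert.sn h2, h3, Pool.Agent.Helper83.Cert.sn h4, trivial⟩
    999 9 0x4104000000000000000000073e8f0c30c00000000000000000004502c10c300000000000000000002114c0c4080000000000000000009001a021020000000000000000001edb38101080000000000000000005a181010420000000000000000001db1f4001080000000000000000004b947000020000000000000000001f5bbc 0 0x0 (by decide +kernel)

theorem mo_s {x y z : ℝ} (x0 : 0 ≤ x) (x1 : x ≤ 3 / 5) (y0 : 0 ≤ y) (y1 : y ≤ 3 / 5)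
    (z0 : 0 ≤ z) (z1 : z ≤ 3 / 5) (h : x + y + z ≤ 9 / 10) :
    ModesC (np x - kpr x y) (nr y) 0 x y (Ws0 x y) (Ws x y) 0 (gg x y z) 0
      (fun _ _ _ _ _ => True) flA fs fp fr Bsp Bsr Bpr Brp := by
  have g0 : x + y ≤ 9 / 10 := by linarith
  have hg : 1943 / 2500 ≤ gg x y z := by
    unfold gg
    linarith
  have hg2 : gg x y 0 ≤ gg x y z := by
    unfold gg
    linarith
  refine ⟨fun w A B c => ?_, fun w A B c => ?_, fun w A B c A1 => ?_, fun w A B c B1 => ?_,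
    fun w A B t c A1 t0 t1 => ?_, fun w A B t c B1 t0 t1 => ?_, fun w A B t c t0 t1 => ?_,
    fun w A B t c t0 t1 => ?_⟩
  · exact (s_one_bd x0 x1 y0 y1 g0 c).mono (by linarith)
  · have e := s_top w c.w0.le c.w1
    exact (s_one_bd x0 x1 y0 y1 g0 c).mono (by linarith)
  · have e := s_ty w (1 - A) c.w0.le c.w1 (by linarith) (by linarith [c.A0])
    exact (s_cpy_bd x0 x1 y0 y1 g0 c A1 (by linarith : (0 : ℝ) ≤ 1 - A) le_rfl).mono (by linarith)
  · have e := s_tx w (1 - B) c.w0.le c.w1 (by linarith) (by linarith [c.B0])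
    exact (s_cpx_bd x0 x1 y0 y1 g0 c B1 (by linarith : (0 : ℝ) ≤ 1 - B) le_rfl).mono (by linarith)
  · exact (s_chy_bd x0 x1 y0 y1 g0 c A1 (by linarith) t0 t1).mono (by linarith)
  · exact (s_chx_bd x0 x1 y0 y1 g0 c (by linarith) B1 t0 t1).mono (by linarith)
  · exact (s_cpy_bd x0 x1 y0 y1 g0 c (by linarith) t0 t1).mono (by linarith)
  · exact (s_cpx_bd x0 x1 y0 y1 g0 c (by linarith) t0 t1).mono (by linarith)

theorem hms : HMs := fun x y z x0 x1 y0 y1 z0 z1 h =>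
  mo_s x0 x1.le y0 y1.le z0 z1.le h.le

theorem r_top  :
    ∀ w : ℝ, 0 ≤ w → w ≤ 1 →
    fr w ≤ 1943 / 2500 := by
  intro w h1 h2
  exact finE (yv_nonneg h1 (le_refl 0) (le_refl 0) (le_refl 0) (le_refl 0) (le_refl 0) (le_refl 0) (le_refl 0) (le_refl 0)) (.A (.A (.A (.D (.n 767) 1998) (.M (.D (.n 2855) 9998) .v0)) (.M (.D (.n 11) 248) (.P .v0))) (.M (.D (.n 14) 623) (.Q .v0))) (.D (.n 1941) 2498)
    [.v0, (.S .o .v0)]
    ⟨h1, Pool.Agent.Helper83.Cert.sn h2, trivial⟩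
    9 3 0x1042000000000000000000000a01001080000000000000000000079480002000000000000000000008ded 0 0x0 (by decide +kernel)

theorem r_ty  :
    ∀ w c : ℝ, 0 ≤ w → w ≤ 1 → 0 ≤ c → c ≤ 1 →
    Brs w c + fs c ≤ 1943 / 2500 := by
  intro w c h1 h2 h3 h4
  exact finE (yv_nonneg h1 h3 (le_refl 0) (le_refl 0) (le_refl 0) (le_refl 0) (le_refl 0) (le_refl 0) (le_refl 0)) (.A (.A (.S (.S (.S (.A (.A (.S (.A (.D (.n 805) 1998) (.M (.D (.n 1269) 4998) .v0)) (.M (.D (.n 27) 2498) (.P .v0))) (.M (.D (.n 767) 9998) (.Q .v0))) (.M (.D (.n 445) 2498) .v1)) (.M (.D (.n 727) 1998) (.P .v1))) (.M (.D (.n 1509) 4998) (.M .v0 .v1))) (.M (.D (.n 715) 4998) (.M (.P .v0) .v1))) (.M (.D (.n 1055) 4998) (.M .v0 (.P .v1)))) (.S (.A (.A (.D .o 123) (.M (.D (.n 1747) 9998) .v1)) (.M (.D (.n 3177) 9998) (.P .v1))) (.M (.D (.n 1191) 9998) (.Q .v1)))) (.D (.n 1941) 2498)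
    [.v0, (.S .o .v0), .v1, (.S .o .v1)]
    ⟨h1, Pool.Agent.Helper83.Cert.sn h2, h3, Pool.Agent.Helper83.Cert.sn h4, trivial⟩
    19 9 0x41030000000000000000000047c60c30c0000000000000000000055b010c3000000000000000000000ec81040800000000000000000002cfc83082000000000000000000000bc80820800000000000000000000626c404200000000000000000000643e04108000000000000000000008dec0002000000000000000000002d15 0 0x0 (by decide +kernel)

theorem mo_r {x y z : ℝ} (x0 : 0 ≤ x) (x1 : x ≤ 3 / 5) (y0 : 0 ≤ y) (y1 : y ≤ 3 / 5)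
    (z0 : 0 ≤ z) (z1 : z ≤ 3 / 5) (h : x + y + z ≤ 9 / 10) :
    ModesC (np x - kps x z) (ns z) 0 x z (Wr x z) (Wr x z) (sg x) (gg x y z) 0
      (fun _ A _ u _ => 1 - A + x < u) flB fr fp fs Brp Brs Bps Bsp := by
  have g0 : x + z ≤ 9 / 10 := by linarith
  have hg : 1943 / 2500 ≤ gg x y z := by
    unfold gg
    linarith
  have hg2 : gg x 0 z ≤ gg x y z := by
    unfold gg
    linarith
  refine ⟨fun w A B c => ?_, fun w A B c => ?_, fun w A B c A1 => ?_, fun w A B c B1 => ?_,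
    fun w A B t c A1 t0 t1 => ?_, fun w A B t c B1 t0 t1 => ?_, fun w A B t c t0 t1 => ?_,
    fun w A B t c t0 t1 => ?_⟩
  · exact (r_one_bd x0 x1 z0 z1 g0 c).mono (by linarith)
  · have e := r_top w c.w0.le c.w1
    exact (r_one_bd x0 x1 z0 z1 g0 c).mono (by linarith)
  · have e := r_ty w (1 - A) c.w0.le c.w1 (by linarith) (by linarith [c.A0])
    exact (r_cpy_bd x0 x1 z0 z1 g0 c A1 (by linarith : (0 : ℝ) ≤ 1 - A) le_rfl).mono (by linarith)
  · exact (r_twox_bd x0 x1 z0 z1 g0 c B1).mono (by linarith)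
  · exact (r_chy_bd x0 x1 z0 z1 g0 c A1 (by linarith) t0 t1).mono (by linarith)
  · exact (r_chx_bd x0 x1 z0 z1 g0 c (by linarith) B1 t0 t1).mono (by linarith)
  · exact (r_cpy_bd x0 x1 z0 z1 g0 c (by linarith) t0 t1).mono (by linarith)
  · exact (r_cpx_bd x0 x1 z0 z1 g0 c (by linarith) t0 t1).mono (by linarith)

theorem hmr : HMr := fun x y z x0 x1 y0 y1 z0 z1 h =>
  mo_r x0 x1.le y0 y1.le z0 z1.le h.le


end Pool.Agent.Helper70.OA
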