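import Pool.Agent.Helper19.TS.OL1ArR
import Pool.Agent.Helper70.OL.Small
import Pool.Agent.Helper78.TS.PieceC
import Pool.Agent.Helper47.FC.Fin
import Pool.Agent.Helper83.Cert.RE

/-!
# Side conditions
-/

set_option autoImplicit false
set_option maxRecDepth 100000
set_option linter.all false

namespace Pool.Agent.Helper70.OA

open Pool.Agent.Helper83.Cert (finE)

open Pool.Agent.Helper83.Cert Pool.Agent.Helper47.FC Pool.Agent.Helper74.TS Pool.Agent.Helper83.TS Pool.Agent.Helper36.CK Pool.Agent.Helper36.TS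
open Pool.Agent.Helper8.TS.OL1Ar Pool.Agent.Helper19.TS.OL1Ar Pool.Agent.Helper78.TS Pool.Agent.Helper70.OL

theorem p_k0 {x y : ℝ} (x0 : 0 ≤ x) (x1 : x ≤ 3 / 5) (y0 : 0 ≤ y) (y1 : y ≤ 3 / 5) (g0 : x + y ≤ 9 / 10) :
    0 ≤ krs x y := by
  exact finE (yv_nonneg x0 y0 (le_refl 0) (le_refl 0) (le_refl 0) (le_refl 0) (le_refl 0) (le_refl 0) (le_refl 0)) .z (.A (.S (.S (.D (.n 3419) 9998) (.M (.D (.n 1135) 1998) .v0)) (.M (.D (.n 1135) 1998) .v1)) (.M (.D (.n 2825) 1998) (.M .v0 .v1)))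
    [.v0, .v1, (.S (.D (.n 1) 3) .v0), (.S (.D (.n 1) 3) .v1), (.S (.D (.n 7) 8) (.A .v0 .v1))]
    ⟨x0, y0, Pool.Agent.Helper83.Cert.sn x1, Pool.Agent.Helper83.Cert.sn y1, Pool.Agent.Helper83.Cert.sn g0, trivial⟩
    124999 8 0x14310000000000000000000767fc400c4000000000000000001c8498308210000000000000000000002710008400000000000000000378cde30030400000000000000000de3378c208100000000000000001cee00860c104000000000000000000002710204100000000000000001cee0086 0 0x0 (by decide +kernel)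

theorem p_sy4 {x y : ℝ} (x0 : 0 ≤ x) (x1 : x ≤ 3 / 5) (y0 : 0 ≤ y) (y1 : y ≤ 3 / 5) (g0 : x + y ≤ 9 / 10) :
    1 / 4 ≤ ns y - krs x y := by
  exact finE (yv_nonneg x0 y0 (le_refl 0) (le_refl 0) (le_refl 0) (le_refl 0) (le_refl 0) (le_refl 0) (le_refl 0)) (.D .o 2) (.S (.S (.S (.D (.n 8165) 9998) (.M (.D (.n 2061) 9998) .v1)) (.M (.D (.n 2451) 9998) (.P .v1))) (.A (.S (.S (.D (.n 3419) 9998) (.M (.D (.n 1135) 1998) .v0)) (.M (.D (.n 1135) 1998) .v1)) (.M (.D (.n 2825) 1998) (.M .v0 .v1))))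
    [.v0, .v1, (.S (.D (.n 1) 3) .v0), (.S (.D (.n 1) 3) .v1), (.S (.D (.n 7) 8) (.A .v0 .v1))]
    ⟨x0, y0, Pool.Agent.Helper83.Cert.sn x1, Pool.Agent.Helper83.Cert.sn y1, Pool.Agent.Helper83.Cert.sn g0, trivial⟩
    49999 9 0x14200000000000000000081d1ca10408000000000000000002c4d9e050820000000000000000020f00530820800000000000000000d1e77f8104100000000000000001495efb610504000000000000000001a5984c11410000000000000000020f005300504000000000000000002787344000100000000000000000044749c 0 0x0 (by decide +kernel)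

theorem p_sy3 {x y : ℝ} (x0 : 0 ≤ x) (x1 : x ≤ 3 / 5) (y0 : 0 ≤ y) (y1 : y ≤ 3 / 5) (g0 : x + y ≤ 9 / 10) (g1 : 3 / 10 ≤ y) :
    1 / 3 ≤ ns y - krs x y := by
  exact finE (yv_nonneg x0 y0 (le_refl 0) (le_refl 0) (le_refl 0) (le_refl 0) (le_refl 0) (le_refl 0) (le_refl 0)) (.D .o 1) (.S (.S (.S (.D (.n 8165) 9998) (.M (.D (.n 2061) 9998) .v1)) (.M (.D (.n 2451) 9998) (.P .v1))) (.A (.S (.S (.D (.n 3419) 9998) (.M (.D (.n 1135) 1998) .v0)) (.M (.D (.n 1135) 1998) .v1)) (.M (.D (.n 2825) 1998) (.M .v0 .v1))))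
    [.v0, .v1, (.S (.D (.n 1) 3) .v0), (.S (.D (.n 1) 3) .v1), (.S (.D (.n 7) 8) (.A .v0 .v1)), (.S .v1 (.D (.n 1) 8))]
    ⟨x0, y0, Pool.Agent.Helper83.Cert.sn x1, Pool.Agent.Helper83.Cert.sn y1, Pool.Agent.Helper83.Cert.sn g0, Pool.Agent.Helper83.Cert.sn g1, trivial⟩
    999999 8 0x18614000000000000000005638a7c018500000000000000000ca0166a084100000000000000000d78ce7e00104000000000000000010c9bf480450400000000000000000001d4c0014100000000000000000000dea8104040000000000000000d78ce7e0010100000000000000005b561548 0 0x0 (by decide +kernel)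

theorem p_sy2 {x y : ℝ} (x0 : 0 ≤ x) (x1 : x ≤ 3 / 5) (y0 : 0 ≤ y) (y1 : y ≤ 3 / 5) (g0 : x + y ≤ 9 / 10) (g1 : y ≤ 7 / 20) :
    (1 - y) ^ 2 / 4 + 169 / 1600 ≤ ns y - krs x y := by
  exact finE (yv_nonneg x0 y0 (le_refl 0) (le_refl 0) (le_refl 0) (le_refl 0) (le_refl 0) (le_refl 0) (le_refl 0)) (.A (.D (.P (.S .o .v1)) 2) (.D (.n 167) 1598)) (.S (.S (.S (.D (.n 8165) 9998) (.M (.D (.n 2061) 9998) .v1)) (.M (.D (.n 2451) 9998) (.P .v1))) (.A (.S (.S (.D (.n 3419) 9998) (.M (.D (.n 1135) 1998) .v0)) (.M (.D (.n 1135) 1998) .v1)) (.M (.D (.n 2825) 1998) (.M .v0 .v1))))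
    [.v0, .v1, (.S (.D (.n 1) 3) .v0), (.S (.D (.n 1) 3) .v1), (.S (.D (.n 7) 8) (.A .v0 .v1)), (.S (.D (.n 5) 18) .v1)]
    ⟨x0, y0, Pool.Agent.Helper83.Cert.sn x1, Pool.Agent.Helper83.Cert.sn y1, Pool.Agent.Helper83.Cert.sn g0, Pool.Agent.Helper83.Cert.sn g1, trivial⟩
    12499 9 0x1420000000000000000026366cf142080000000000000000040dd294208200000000000000000a227aea00008000000000000000010cd7e08104100000000000000000a227aea10504000000000000000000cf8ef411410000000000000000010374a5005040000000000000000013765440001000000000000000008bb933a 0 0x0 (by decide +kernel)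

theorem p_sy {x y : ℝ} (x0 : 0 ≤ x) (x1 : x ≤ 3 / 5) (y0 : 0 ≤ y) (y1 : y ≤ 3 / 5)
    (g0 : x + y ≤ 9 / 10) : Side (ns y - krs x y) y :=
  ⟨p_sy4 x0 x1 y0 y1 g0, fun h => p_sy3 x0 x1 y0 y1 g0 h, fun h => p_sy2 x0 x1 y0 y1 g0 h⟩

theorem p_sx4 {x y : ℝ} (x0 : 0 ≤ x) (x1 : x ≤ 3 / 5) (y0 : 0 ≤ y) (y1 : y ≤ 3 / 5) (g0 : x + y ≤ 9 / 10) :
    1 / 4 ≤ nr x - krs x y := by
  exact finE (yv_nonneg x0 y0 (le_refl 0) (le_refl 0) (le_refl 0) (le_refl 0) (le_refl 0) (le_refl 0) (le_refl 0)) (.D .o 2) (.S (.S (.S (.D (.n 8077) 9998) (.M (.D (.n 1451) 9998) .v0)) (.M (.D (.n 3717) 9998) (.P .v0))) (.A (.S (.S (.D (.n 3419) 9998) (.M (.D (.n 1135) 1998) .v0)) (.M (.D (.n 1135) 1998) .v1)) (.M (.D (.n 2825) 1998) (.M .v0 .v1))))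
    [.v0, .v1, (.S (.D (.n 1) 3) .v0), (.S (.D (.n 1) 3) .v1), (.S (.D (.n 7) 8) (.A .v0 .v1))]
    ⟨x0, y0, Pool.Agent.Helper83.Cert.sn x1, Pool.Agent.Helper83.Cert.sn y1, Pool.Agent.Helper83.Cert.sn g0, trivial⟩
    24999 9 0x142000000000000000000f0f51e142080000000000000000033ee33020820000000000000000081d2e34002080000000000000000087028c830c10000000000000000003f9f671440400000000000000000082a54c410100000000000000000011c3ae141040000000000000000028d3e6410410000000000000000002a8140 0 0x0 (by decide +kernel)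

theorem p_sx3 {x y : ℝ} (x0 : 0 ≤ x) (x1 : x ≤ 3 / 5) (y0 : 0 ≤ y) (y1 : y ≤ 3 / 5) (g0 : x + y ≤ 9 / 10) (g1 : 3 / 10 ≤ x) :
    1 / 3 ≤ nr x - krs x y := by
  exact finE (yv_nonneg x0 y0 (le_refl 0) (le_refl 0) (le_refl 0) (le_refl 0) (le_refl 0) (le_refl 0) (le_refl 0)) (.D .o 1) (.S (.S (.S (.D (.n 8077) 9998) (.M (.D (.n 1451) 9998) .v0)) (.M (.D (.n 3717) 9998) (.P .v0))) (.A (.S (.S (.D (.n 3419) 9998) (.M (.D (.n 1135) 1998) .v0)) (.M (.D (.n 1135) 1998) .v1)) (.M (.D (.n 2825) 1998) (.M .v0 .v1))))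
    [.v0, .v1, (.S (.D (.n 1) 3) .v0), (.S (.D (.n 1) 3) .v1), (.S (.D (.n 7) 8) (.A .v0 .v1)), (.S .v0 (.D (.n 1) 8))]
    ⟨x0, y0, Pool.Agent.Helper83.Cert.sn x1, Pool.Agent.Helper83.Cert.sn y1, Pool.Agent.Helper83.Cert.sn g0, Pool.Agent.Helper83.Cert.sn g1, trivial⟩
    999999 9 0x30c30000000000000000000006480030c00000000000000008a383b204083000000000000000000001f680020c00000000000000031ee1e760018500000000000000000f4a14561451400000000000000000000018c2085000000000000000000004e840021400000000000000000003d860000500000000000000000421fa94 0 0x0 (by decide +kernel)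

theorem p_sx2 {x y : ℝ} (x0 : 0 ≤ x) (x1 : x ≤ 3 / 5) (y0 : 0 ≤ y) (y1 : y ≤ 3 / 5) (g0 : x + y ≤ 9 / 10) (g1 : x ≤ 7 / 20) :
    (1 - x) ^ 2 / 4 + 169 / 1600 ≤ nr x - krs x y := by
  exact finE (yv_nonneg x0 y0 (le_refl 0) (le_refl 0) (le_refl 0) (le_refl 0) (le_refl 0) (le_refl 0) (le_refl 0)) (.A (.D (.P (.S .o .v0)) 2) (.D (.n 167) 1598)) (.S (.S (.S (.D (.n 8077) 9998) (.M (.D (.n 1451) 9998) .v0)) (.M (.D (.n 3717) 9998) (.P .v0))) (.A (.S (.S (.D (.n 3419) 9998) (.M (.D (.n 1135) 1998) .v0)) (.M (.D (.n 1135) 1998) .v1)) (.M (.D (.n 2825) 1998) (.M .v0 .v1))))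
    [.v0, .v1, (.S (.D (.n 1) 3) .v0), (.S (.D (.n 1) 3) .v1), (.S (.D (.n 7) 8) (.A .v0 .v1)), (.S (.D (.n 5) 18) .v0)]
    ⟨x0, y0, Pool.Agent.Helper83.Cert.sn x1, Pool.Agent.Helper83.Cert.sn y1, Pool.Agent.Helper83.Cert.sn g0, Pool.Agent.Helper83.Cert.sn g1, trivial⟩
    12499 9 0x142000000000000000000c95257142080000000000000000037ebaa02082000000000000000008bcbf0800008000000000000000027755ba81041000000000000000008bcbf0810504000000000000000000b2f0901141000000000000000000dfaea800504000000000000000008765b080001000000000000000003c13cc2 0 0x0 (by decide +kernel)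

theorem p_sx {x y : ℝ} (x0 : 0 ≤ x) (x1 : x ≤ 3 / 5) (y0 : 0 ≤ y) (y1 : y ≤ 3 / 5)
    (g0 : x + y ≤ 9 / 10) : Side (nr x - krs x y) x :=
  ⟨p_sx4 x0 x1 y0 y1 g0, fun h => p_sx3 x0 x1 y0 y1 g0 h, fun h => p_sx2 x0 x1 y0 y1 g0 h⟩

theorem p_sg {x y : ℝ} (x0 : 0 ≤ x) (x1 : x ≤ 3 / 5) (y0 : 0 ≤ y) (y1 : y ≤ 3 / 5)
    (g0 : x + y ≤ 9 / 10) : Sg (nr x) (ns y) (krs x y) x y :=
  ⟨p_k0 x0 x1 y0 y1 g0, p_sx4 x0 x1 y0 y1 g0, p_sy4 x0 x1 y0 y1 g0, x0, x1, y0, y1⟩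

theorem s_sy4 {x y : ℝ} (x0 : 0 ≤ x) (x1 : x ≤ 3 / 5) (y0 : 0 ≤ y) (y1 : y ≤ 3 / 5) (g0 : x + y ≤ 9 / 10) :
    1 / 4 ≤ nr y - 0 := by
  exact finE (yv_nonneg x0 y0 (le_refl 0) (le_refl 0) (le_refl 0) (le_refl 0) (le_refl 0) (le_refl 0) (le_refl 0)) (.D .o 2) (.S (.S (.S (.D (.n 8077) 9998) (.M (.D (.n 1451) 9998) .v1)) (.M (.D (.n 3717) 9998) (.P .v1))) .z)
    [.v0, .v1, (.S (.D (.n 1) 3) .v0), (.S (.D (.n 1) 3) .v1), (.S (.D (.n 7) 8) (.A .v0 .v1))]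
    ⟨x0, y0, Pool.Agent.Helper83.Cert.sn x1, Pool.Agent.Helper83.Cert.sn y1, Pool.Agent.Helper83.Cert.sn g0, trivial⟩
    39999 9 0x410400000000000000000000001000210000000000000000007180e0030440000000000000000000000500001000000000000000000706fb0051450000000000000000000000010c314000000000000000000000030208500000000000000000000006400114000000000000000000001270000500000000000000000000035c 0 0x0 (by decide +kernel)

theorem s_sy3 {x y : ℝ} (x0 : 0 ≤ x) (x1 : x ≤ 3 / 5) (y0 : 0 ≤ y) (y1 : y ≤ 3 / 5) (g0 : x + y ≤ 9 / 10) (g1 : 3 / 10 ≤ y) :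
    1 / 3 ≤ nr y - 0 := by
  exact finE (yv_nonneg x0 y0 (le_refl 0) (le_refl 0) (le_refl 0) (le_refl 0) (le_refl 0) (le_refl 0) (le_refl 0)) (.D .o 1) (.S (.S (.S (.D (.n 8077) 9998) (.M (.D (.n 1451) 9998) .v1)) (.M (.D (.n 3717) 9998) (.P .v1))) .z)
    [.v0, .v1, (.S (.D (.n 1) 3) .v0), (.S (.D (.n 1) 3) .v1), (.S (.D (.n 7) 8) (.A .v0 .v1)), (.S .v1 (.D (.n 1) 8))]
    ⟨x0, y0, Pool.Agent.Helper83.Cert.sn x1, Pool.Agent.Helper83.Cert.sn y1, Pool.Agent.Helper83.Cert.sn g0, Pool.Agent.Helper83.Cert.sn g1, trivial⟩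
    39999 9 0x410400000000000000000000003000210000000000000000015482a0030440000000000000000000000f00001000000000000000001514f10051450000000000000000000000030c314000000000000000000000090208500000000000000000000012c001140000000000000000000037500005000000000000000000000a14 0 0x0 (by decide +kernel)

theorem s_sy2 {x y : ℝ} (x0 : 0 ≤ x) (x1 : x ≤ 3 / 5) (y0 : 0 ≤ y) (y1 : y ≤ 3 / 5) (g0 : x + y ≤ 9 / 10) (g1 : y ≤ 7 / 20) :
    (1 - y) ^ 2 / 4 + 169 / 1600 ≤ nr y - 0 := by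
  exact finE (yv_nonneg x0 y0 (le_refl 0) (le_refl 0) (le_refl 0) (le_refl 0) (le_refl 0) (le_refl 0) (le_refl 0)) (.A (.D (.P (.S .o .v1)) 2) (.D (.n 167) 1598)) (.S (.S (.S (.D (.n 8077) 9998) (.M (.D (.n 1451) 9998) .v1)) (.M (.D (.n 3717) 9998) (.P .v1))) .z)
    [.v0, .v1, (.S (.D (.n 1) 3) .v0), (.S (.D (.n 1) 3) .v1), (.S (.D (.n 7) 8) (.A .v0 .v1)), (.S (.D (.n 5) 18) .v1)]
    ⟨x0, y0, Pool.Agent.Helper83.Cert.sn x1, Pool.Agent.Helper83.Cert.sn y1, Pool.Agent.Helper83.Cert.sn g0, Pool.Agent.Helper83.Cert.sn g1, trivial⟩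
    24999 9 0x1830000000000000000000001c90c30c00000000000000000000014000430000000000000000000015e000508000000000000000005f0dc0021820000000000000000000001f400608000000000000000004717fec40420000000000000000000007d00c108000000000000000000001f40004200000000000000000ed91d8c 0 0x0 (by decide +kernel)

theorem s_sy {x y : ℝ} (x0 : 0 ≤ x) (x1 : x ≤ 3 / 5) (y0 : 0 ≤ y) (y1 : y ≤ 3 / 5)
    (g0 : x + y ≤ 9 / 10) : Side (nr y - 0) y :=
  ⟨s_sy4 x0 x1 y0 y1 g0, fun h => s_sy3 x0 x1 y0 y1 g0 h, fun h => s_sy2 x0 x1 y0 y1 g0 h⟩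

theorem s_kx {x y : ℝ} (x0 : 0 ≤ x) (x1 : x ≤ 3 / 5) (y0 : 0 ≤ y) (y1 : y ≤ 3 / 5) (g0 : x + y ≤ 9 / 10) :
    0 ≤ (np x - kpr x y) - 0 := by
  exact finE (yv_nonneg x0 y0 (le_refl 0) (le_refl 0) (le_refl 0) (le_refl 0) (le_refl 0) (le_refl 0) (le_refl 0)) .z (.S (.S (.S (.A (.D (.n 1719) 2498) (.M (.D (.n 1331) 9998) .v0)) (.M (.D (.n 5757) 9998) (.P .v0))) (.A (.S (.S (.D (.n 19) 38) (.M (.D (.n 5525) 9998) .v0)) (.M (.D (.n 5225) 9998) .v1)) (.M (.D (.n 7097) 9998) (.M .v0 .v1)))) .z)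
    [.v0, .v1, (.S (.D (.n 1) 3) .v0), (.S (.D (.n 1) 3) .v1), (.S (.D (.n 7) 8) (.A .v0 .v1))]
    ⟨x0, y0, Pool.Agent.Helper83.Cert.sn x1, Pool.Agent.Helper83.Cert.sn y1, Pool.Agent.Helper83.Cert.sn g0, trivial⟩
    49999 9 0x1420000000000000000002215d7142080000000000000000009774e420820000000000000000017a90b20000800000000000000003984292810410000000000000000017a90b2105040000000000000000001e4904114100000000000000000025dd39005040000000000000000070afe400001000000000000000003cc8762 0 0x0 (by decide +kernel)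

theorem s_sxw {x y : ℝ} (x0 : 0 ≤ x) (x1 : x ≤ 3 / 5) (y0 : 0 ≤ y) (y1 : y ≤ 3 / 5) (g0 : x + y ≤ 9 / 10) :
    53 / 500 + 6 / 25 * x ≤ (np x - kpr x y) - 0 := by
  exact finE (yv_nonneg x0 y0 (le_refl 0) (le_refl 0) (le_refl 0) (le_refl 0) (le_refl 0) (le_refl 0) (le_refl 0)) (.A (.D (.n 51) 498) (.M (.D (.n 4) 23) .v0)) (.S (.S (.S (.A (.D (.n 1719) 2498) (.M (.D (.n 1331) 9998) .v0)) (.M (.D (.n 5757) 9998) (.P .v0))) (.A (.S (.S (.D (.n 19) 38) (.M (.D (.n 5525) 9998) .v0)) (.M (.D (.n 5225) 9998) .v1)) (.M (.D (.n 7097) 9998) (.M .v0 .v1)))) .z)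
    [.v0, .v1, (.S (.D (.n 1) 3) .v0), (.S (.D (.n 1) 3) .v1), (.S (.D (.n 7) 8) (.A .v0 .v1))]
    ⟨x0, y0, Pool.Agent.Helper83.Cert.sn x1, Pool.Agent.Helper83.Cert.sn y1, Pool.Agent.Helper83.Cert.sn g0, trivial⟩
    9999 7 0xc10000000000000000004995ca0450400000000000000000000019001410000000000000000003315f100508000000000000000000e4f3ac508200000000000000000000006400208000000000000000008f1670800020000000000000000011a6b88 0 0x0 (by decide +kernel)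

theorem s_sx {x y : ℝ} (x0 : 0 ≤ x) (x1 : x ≤ 3 / 5) (y0 : 0 ≤ y) (y1 : y ≤ 3 / 5)
    (g0 : x + y ≤ 9 / 10) : SideW ((np x - kpr x y) - 0) x := s_sxw x0 x1 y0 y1 g0

theorem s_s0 {x y : ℝ} (x0 : 0 ≤ x) (x1 : x ≤ 3 / 5) (y0 : 0 ≤ y) (y1 : y ≤ 3 / 5)
    (g0 : x + y ≤ 9 / 10) : S0 (np x - kpr x y) (nr y) 0 x y :=
  ⟨le_rfl, s_kx x0 x1 y0 y1 g0,
    le_trans (by norm_num) (s_sy4 x0 x1 y0 y1 g0), x0, x1, y0, y1⟩

theorem r_sy4 {x y : ℝ} (x0 : 0 ≤ x) (x1 : x ≤ 3 / 5) (y0 : 0 ≤ y) (y1 : y ≤ 3 / 5) (g0 : x + y ≤ 9 / 10) :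
    1 / 4 ≤ ns y - 0 := by
  exact finE (yv_nonneg x0 y0 (le_refl 0) (le_refl 0) (le_refl 0) (le_refl 0) (le_refl 0) (le_refl 0) (le_refl 0)) (.D .o 2) (.S (.S (.S (.D (.n 8165) 9998) (.M (.D (.n 2061) 9998) .v1)) (.M (.D (.n 2451) 9998) (.P .v1))) .z)
    [.v0, .v1, (.S (.D (.n 1) 3) .v0), (.S (.D (.n 1) 3) .v1), (.S (.D (.n 7) 8) (.A .v0 .v1))]
    ⟨x0, y0, Pool.Agent.Helper83.Cert.sn x1, Pool.Agent.Helper83.Cert.sn y1, Pool.Agent.Helper83.Cert.sn g0, trivial⟩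
    39999 9 0x410400000000000000000000001000210000000000000000004ade400304400000000000000000000005000010000000000000000006bdef0051450000000000000000000000010c314000000000000000000000030208500000000000000000000006400114000000000000000000001270000500000000000000000000035c 0 0x0 (by decide +kernel)

theorem r_sy3 {x y : ℝ} (x0 : 0 ≤ x) (x1 : x ≤ 3 / 5) (y0 : 0 ≤ y) (y1 : y ≤ 3 / 5) (g0 : x + y ≤ 9 / 10) (g1 : 3 / 10 ≤ y) :
    1 / 3 ≤ ns y - 0 := by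
  exact finE (yv_nonneg x0 y0 (le_refl 0) (le_refl 0) (le_refl 0) (le_refl 0) (le_refl 0) (le_refl 0) (le_refl 0)) (.D .o 1) (.S (.S (.S (.D (.n 8165) 9998) (.M (.D (.n 2061) 9998) .v1)) (.M (.D (.n 2451) 9998) (.P .v1))) .z)
    [.v0, .v1, (.S (.D (.n 1) 3) .v0), (.S (.D (.n 1) 3) .v1), (.S (.D (.n 7) 8) (.A .v0 .v1)), (.S .v1 (.D (.n 1) 8))]
    ⟨x0, y0, Pool.Agent.Helper83.Cert.sn x1, Pool.Agent.Helper83.Cert.sn y1, Pool.Agent.Helper83.Cert.sn g0, Pool.Agent.Helper83.Cert.sn g1, trivial⟩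
    39999 9 0x41040000000000000000000000300021000000000000000000e09ac0030440000000000000000000000f00001000000000000000001439cd0051450000000000000000000000030c314000000000000000000000090208500000000000000000000012c001140000000000000000000037500005000000000000000000000a14 0 0x0 (by decide +kernel)

theorem r_sy2 {x y : ℝ} (x0 : 0 ≤ x) (x1 : x ≤ 3 / 5) (y0 : 0 ≤ y) (y1 : y ≤ 3 / 5) (g0 : x + y ≤ 9 / 10) (g1 : y ≤ 7 / 20) :
    (1 - y) ^ 2 / 4 + 169 / 1600 ≤ ns y - 0 := by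
  exact finE (yv_nonneg x0 y0 (le_refl 0) (le_refl 0) (le_refl 0) (le_refl 0) (le_refl 0) (le_refl 0) (le_refl 0)) (.A (.D (.P (.S .o .v1)) 2) (.D (.n 167) 1598)) (.S (.S (.S (.D (.n 8165) 9998) (.M (.D (.n 2061) 9998) .v1)) (.M (.D (.n 2451) 9998) (.P .v1))) .z)
    [.v0, .v1, (.S (.D (.n 1) 3) .v0), (.S (.D (.n 1) 3) .v1), (.S (.D (.n 7) 8) (.A .v0 .v1)), (.S (.D (.n 5) 18) .v1)]
    ⟨x0, y0, Pool.Agent.Helper83.Cert.sn x1, Pool.Agent.Helper83.Cert.sn y1, Pool.Agent.Helper83.Cert.sn g0, Pool.Agent.Helper83.Cert.sn g1, trivial⟩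
    24999 9 0x1830000000000000000000001c90c30c00000000000000000000014000430000000000000000000015e00050800000000000000000537a55021820000000000000000000001f4006080000000000000000034bc10440420000000000000000000007d00c108000000000000000000001f40004200000000000000000d0a14d4 0 0x0 (by decide +kernel)

theorem r_sy {x y : ℝ} (x0 : 0 ≤ x) (x1 : x ≤ 3 / 5) (y0 : 0 ≤ y) (y1 : y ≤ 3 / 5)
    (g0 : x + y ≤ 9 / 10) : Side (ns y - 0) y :=
  ⟨r_sy4 x0 x1 y0 y1 g0, fun h => r_sy3 x0 x1 y0 y1 g0 h, fun h => r_sy2 x0 x1 y0 y1 g0 h⟩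

theorem r_kx {x y : ℝ} (x0 : 0 ≤ x) (x1 : x ≤ 3 / 5) (y0 : 0 ≤ y) (y1 : y ≤ 3 / 5) (g0 : x + y ≤ 9 / 10) :
    0 ≤ (np x - kps x y) - 0 := by
  exact finE (yv_nonneg x0 y0 (le_refl 0) (le_refl 0) (le_refl 0) (le_refl 0) (le_refl 0) (le_refl 0) (le_refl 0)) .z (.S (.S (.S (.A (.D (.n 1719) 2498) (.M (.D (.n 1331) 9998) .v0)) (.M (.D (.n 5757) 9998) (.P .v0))) (.A (.S (.S (.D (.n 2667) 4998) (.M (.D (.n 1261) 2498) .v0)) (.M (.D (.n 4391) 9998) .v1)) (.M (.D (.n 5817) 9998) (.M .v0 .v1)))) .z)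
    [.v0, .v1, (.S (.D (.n 1) 3) .v0), (.S (.D (.n 1) 3) .v1), (.S (.D (.n 7) 8) (.A .v0 .v1))]
    ⟨x0, y0, Pool.Agent.Helper83.Cert.sn x1, Pool.Agent.Helper83.Cert.sn y1, Pool.Agent.Helper83.Cert.sn g0, trivial⟩
    49999 9 0x1420000000000000000000188851420800000000000000000006c7dc208200000000000000000010e01e0000800000000000000003426dea8104100000000000000000010e01e1050400000000000000000001599c114100000000000000000001b1f700504000000000000000006df972800010000000000000000038719f2 0 0x0 (by decide +kernel)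

theorem r_sw {x y : ℝ} (x0 : 0 ≤ x) (x1 : x ≤ 3 / 5) (y0 : 0 ≤ y) (y1 : y ≤ 3 / 5)
    (g0 : x + y ≤ 9 / 10) : Sw (np x - kps x y) (ns y) 0 x y :=
  ⟨le_rfl, r_kx x0 x1 y0 y1 g0, r_sy4 x0 x1 y0 y1 g0, x0, x1, y0, y1⟩


end Pool.Agent.Helper70.OA
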